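import Mathlib
import Pool.Agent.Q135.IntGame
import Pool.Agent.Q135.MinMax

/-! The value of the min-max-removal game on every coloured forest poset (MP_488bb9_co, Q1).

`Ruleset`, `HasValue` (the player who moves second wins `p - n`) are in `Pool.Agent.Q135.IntGame`. -/

namespace Pool.Agent.Results.MP_488bb9_co.MinMaxRemovalValue

open Finset Q135 Q135.IntGame

/-- Every element covers at most one element: the finite posets with this property are the forest
posets. -/
def IsForest (α : Type*) [PartialOrder α] : Prop := ∀ x y z : α, x ⋖ z → y ⋖ z → x = y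

/-- `x` is removable from the set `S` of present elements: it is maximal or minimal in `S`. -/
def Removable {α : Type*} [PartialOrder α] (S : Finset α) (x : α) : Prop :=
  x ∈ S ∧ ((∀ y ∈ S, ¬ x < y) ∨ (∀ y ∈ S, ¬ y < x))

/-- The min-max-removal game; `c x = true` means that `x` is white. -/
def minMaxRemoval {α : Type*} [PartialOrder α] [DecidableEq α] (c : α → Bool) : Ruleset (Finset α) where
  white S S' := ∃ x, Removable S x ∧ c x = true ∧ S' = S.erase x
  black S S' := ∃ x, Removable S x ∧ c x = false ∧ S' = S.erase x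

/-- `x` is inessential: some blocking triple `p ⋖ q ⋖ s` (`p`, `q` of one colour, `s` of the other)
lies above `x` (`p = x` allowed). The essential elements form the largest upper set without a blocking
triple. -/
def Inessential {α : Type*} [PartialOrder α] (c : α → Bool) (x : α) : Prop :=
  ∃ p q s, x ≤ p ∧ p ⋖ q ∧ q ⋖ s ∧ c p = c q ∧ c s ≠ c q

open Classical in
/-- The clamped sums `m` on the inessential part: `m x = max (1 + Σ m y) 0` if `x` is white and
`m x = min (-1 + Σ m y) 0` if `x` is black, where `y` runs over the elements covering `x`; and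
`m x = 0` if `x` is essential. -/
def IsClampedSum {α : Type*} [PartialOrder α] [Fintype α] (c : α → Bool) (m : α → ℤ) : Prop :=
  ∀ x, m x = if Inessential c x then
    (if c x = true then max (1 + ∑ y ∈ univ.filter (fun y => x ⋖ y), m y) 0
      else min (-1 + ∑ y ∈ univ.filter (fun y => x ⋖ y), m y) 0)
    else 0

open Classical in
/-- The formula: white minus black essential elements, plus the clamped sums at the minimal
elements. -/
noncomputable def formula {α : Type*} [PartialOrder α] [Fintype α] (c : α → Bool) (m : α → ℤ) : ℤ :=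
  ((univ.filter (fun x => ¬ Inessential c x ∧ c x = true)).card : ℤ)
    - ((univ.filter (fun x => ¬ Inessential c x ∧ c x = false)).card : ℤ)
    + ∑ x ∈ univ.filter (fun x => IsMin x), m x

section aux

variable {α : Type*} [PartialOrder α] [Fintype α]

theorem ub_iff (c : α → Bool) (x : α) : MinMax.UB c univ x ↔ Inessential c x := by
  unfold MinMax.UB Inessential
  simp

theorem clamped_m (c : α → Bool) : IsClampedSum c (MinMax.m c univ) := by
  classical
  intro x
  rw [MinMax.m_eq]
  by_cases h : Inessential c x
  · rw [if_pos ⟨mem_univ _, (ub_iff c x).2 h⟩, if_pos h]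
    have e : (∑ y ∈ univ.filter (fun y => x ⋖ y), MinMax.m c univ y) =
        ∑ y ∈ univ.filter (fun y => x ⋖ y), MinMax.m c univ y := rfl
    cases hc : c x
    · simp only [MinMax.f, Bool.false_eq_true, if_false]
      congr 1
      ring
    · simp only [MinMax.f, if_true]
      congr 1
      ring
  · rw [if_neg (fun h2 => h ((ub_iff c x).1 h2.2)), if_neg h]

theorem clamped_unique {c : α → Bool} {m m' : α → ℤ} (h : IsClampedSum c m) (h' : IsClampedSum c m') :
    m = m' := by
  classical
  funext x
  induction x using (wellFounded_gt (α := α)).induction with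
  | _ x ih =>
    rw [h x, h' x]
    have e : (∑ y ∈ univ.filter (fun y => x ⋖ y), m y) = ∑ y ∈ univ.filter (fun y => x ⋖ y), m' y :=
      Finset.sum_congr rfl fun y hy => ih y (Finset.mem_filter.1 hy).2.lt
    rw [e]

theorem formula_eq (c : α → Bool) : formula c (MinMax.m c univ) = MinMax.F c univ := by
  classical
  unfold formula MinMax.F
  congr 1
  · rw [Finset.card_filter, Finset.card_filter]
    push_cast
    rw [← Finset.sum_sub_distrib]
    refine Finset.sum_congr rfl fun v _ => ?_
    by_cases he : Inessential c v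
    · have he' := (ub_iff c v).2 he
      simp [he, he']
    · have he' : ¬ MinMax.UB c univ v := fun h => he ((ub_iff c v).1 h)
      cases hcv : c v <;> simp [he, he', MinMax.sg]
  · rw [Finset.sum_filter]
    refine Finset.sum_congr rfl fun v _ => ?_
    by_cases hv : IsMin v
    · rw [if_pos hv, if_pos (fun y _ => hv.not_lt)]
    · rw [if_neg hv, if_neg]
      intro h
      exact hv (fun y hy => by
        rcases hy.eq_or_lt with h2 | h2
        · exact h2 ▸ le_rfl
        · exact absurd h2 (h y (mem_univ _)))

end aux

/-- **Theorem.** For every coloured forest poset the clamped sums `m` exist and are unique, and the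
min-max-removal game has exactly one integer value, given by the formula. -/
theorem result {α : Type*} [PartialOrder α] [Fintype α] [DecidableEq α] (hF : IsForest α)
    (c : α → Bool) :
    (∃! m : α → ℤ, IsClampedSum c m) ∧
      ∀ m : α → ℤ, IsClampedSum c m →
        ∀ n : ℤ, HasValue (minMaxRemoval c) (Finset.univ : Finset α) n ↔ n = formula c m := by
  classical
  refine ⟨⟨MinMax.m c univ, clamped_m c, fun m hm => clamped_unique hm (clamped_m c)⟩, ?_⟩
  intro m hm n
  rw [clamped_unique hm (clamped_m c), formula_eq]
  have white : ∀ S : Finset α, ∀ x, MinMax.Conv S → Removable S x → c x = true →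
      MinMax.Conv (S.erase x) ∧ (S.erase x).card < S.card ∧ MinMax.F c (S.erase x) ≤ MinMax.F c S - 1 := by
    intro S x hS hx hc
    refine ⟨?_, Finset.card_erase_lt_of_mem hx.1, ?_⟩
    · rcases hx with ⟨h1, h2 | h2⟩
      · exact hS.erase_top ⟨h1, h2⟩
      · exact hS.erase_bot ⟨h1, h2⟩
    · rcases hx with ⟨h1, h2 | h2⟩
      · exact MinMax.F_erase_top hF hS ⟨h1, h2⟩ hc
      · exact MinMax.F_erase_bot_le hF hS ⟨h1, h2⟩ hc
  have black : ∀ S : Finset α, ∀ x, MinMax.Conv S → Removable S x → c x = false →
      MinMax.Conv (S.erase x) ∧ (S.erase x).card < S.card ∧ MinMax.F c S + 1 ≤ MinMax.F c (S.erase x) := by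
    intro S x hS hx hc
    have hc' : (fun v => !(c v)) x = true := by simp [hc]
    refine ⟨?_, Finset.card_erase_lt_of_mem hx.1, ?_⟩
    · rcases hx with ⟨h1, h2 | h2⟩
      · exact hS.erase_top ⟨h1, h2⟩
      · exact hS.erase_bot ⟨h1, h2⟩
    · rcases hx with ⟨h1, h2 | h2⟩
      · have := MinMax.F_erase_top (c := fun v => !(c v)) hF hS ⟨h1, h2⟩ hc'
        rw [MinMax.F_not, MinMax.F_not] at this
        linarith
      · have := MinMax.F_erase_bot_le (c := fun v => !(c v)) hF hS ⟨h1, h2⟩ hc'
        rw [MinMax.F_not, MinMax.F_not] at this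
        linarith
  refine hasValue_iff (good := MinMax.Conv) (size := Finset.card) (F := MinMax.F c) ?_ ?_ ?_ ?_ univ
    (fun _ _ _ _ _ _ _ => mem_univ _) n
  · rintro S _ hS ⟨x, h1, h2, rfl⟩
    exact white S x hS h1 h2
  · rintro S _ hS ⟨x, h1, h2, rfl⟩
    exact black S x hS h1 h2
  · intro S hS hpos
    obtain ⟨x, h1, h2, h3⟩ := MinMax.exists_good hF hS hpos
    refine ⟨S.erase x, ⟨x, ?_, h2, rfl⟩, h3⟩
    rcases h1 with h1 | h1
    · exact ⟨h1.1, Or.inl h1.2⟩
    · exact ⟨h1.1, Or.inr h1.2⟩
  · intro S hS hneg
    obtain ⟨x, h1, h2, h3⟩ := MinMax.exists_good (c := fun v => !(c v)) hF hS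
      (by rw [MinMax.F_not]; linarith)
    rw [MinMax.F_not, MinMax.F_not] at h3
    refine ⟨S.erase x, ⟨x, ?_, by simpa using h2, rfl⟩, by linarith⟩
    rcases h1 with h1 | h1
    · exact ⟨h1.1, Or.inl h1.2⟩
    · exact ⟨h1.1, Or.inr h1.2⟩

end Pool.Agent.Results.MP_488bb9_co.MinMaxRemovalValue
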